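import Pool.Agent.K4W.StmtsU

/-! Squad K4W, row USM. -/

set_option autoImplicit false

namespace Pool.Agent.K4W.H66

open Pool.Agent.Helper69_Weyl (ee ee_add norm_ee)
open Pool.Agent.K4W

theorem usm (hU : UgaStmt) : UsmStmt := by
  have h1 : ∀ (N : ℕ) (t ξ : ℝ) (x : ℤ), ‖f N t ξ x‖ = ga N (x : ℝ) := by
    intro N t ξ x
    unfold f
    rw [norm_mul, norm_ee, mul_one, Complex.norm_real, Real.norm_of_nonneg]
    exact (Real.exp_pos _).le
  refine ⟨h1, ?_, ?_⟩
  · intro N t ξ hN
    have h2 := (hU N 1 0 hN le_rfl).1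
    refine h2.congr fun x => ?_
    rw [h1]
    congr 1
    push_cast
    ring
  · intro N t ξ η x
    unfold f
    rw [mul_assoc, ← ee_add]
    congr 2
    ring

end Pool.Agent.K4W.H66
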