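import Pool.Agent.K4W.StmtsW

/-!
Squad K4W, row WMU: `lam` is additive.
-/

set_option autoImplicit false

open Polynomial

namespace Pool.Agent.K4W.H66

open Pool.Agent.K4W

private theorem rev0 {K : Type} [Field K] {g : K[X]} (hg : g.Monic) : g.reverse.coeff 0 = 1 := by
  rw [coeff_zero_reverse]
  exact hg

private theorem ec_mul {K : Type} [Field K] {g h : K[X]} (hg : g.Monic) (hh : h.Monic) :
    ec (g * h) 1 = ec g 1 + ec h 1 ∧
    ec (g * h) 2 = ec g 2 + ec g 1 * ec h 1 + ec h 2 ∧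
    ec (g * h) 3 = ec g 3 + ec g 2 * ec h 1 + ec g 1 * ec h 2 + ec h 3 ∧
    ec (g * h) 4 = ec g 4 + ec g 3 * ec h 1 + ec g 2 * ec h 2 + ec g 1 * ec h 3 + ec h 4 := by
  have h0g := rev0 hg
  have h0h := rev0 hh
  unfold ec
  rw [reverse_mul_of_domain]
  simp only [coeff_mul, Finset.Nat.sum_antidiagonal_eq_sum_range_succ_mk, Finset.sum_range_succ,
    Finset.sum_range_zero, h0g, h0h]
  refine ⟨?_, ?_, ?_, ?_⟩ <;> norm_num [h0g, h0h] <;> ring

theorem wmu : WmuStmt := by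
  intro K _ A B g h hg hh
  obtain ⟨e1, e2, e3, e4⟩ := ec_mul hg hh
  unfold lam
  rw [e1, e2, e3, e4]
  ring

end Pool.Agent.K4W.H66
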